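import Pool.Agent.Work.MP_db9399_vt.Tools
import Pool.Agent.Work.MP_db9399_all_helper7.RND

/-!
# MP_db9399 VERT, block RNDK: one random round, demands of size at least `log ^ 2` (helper51)
-/

set_option autoImplicit false

namespace Pool.Agent.Work.MP_db9399_vt

open Finset Classical
open Pool.Agent.Work.MP_db9399_all (nb PackI Stmt_LLLI Stmt_RNH Stmt_RNK)

universe u

open Pool.Agent.Work.MP_db9399_all.RND in
theorem stmt_RNDK (hL : Stmt_LLLI.{u}) (hH : Stmt_RNH.{u}) (hK : Stmt_RNK.{u}) :
    Stmt_RNDK.{u} := by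
  intro om hom hom1
  set q : ℕ := ⌈10000 / om⌉₊ with hqdef
  have hq : 10000 ≤ om * q := by
    have h1 : 10000 / om ≤ q := Nat.le_ceil _
    rw [div_le_iff₀ hom] at h1
    linarith
  have hqr : (0 : ℝ) < q := by
    by_contra hcon
    push Not at hcon
    nlinarith
  have hq1 : (10000 : ℝ) ≤ q := by nlinarith
  have hq2 : 2 ≤ q := by
    have : (2 : ℝ) ≤ q := by linarith
    exact_mod_cast this
  set c : ℝ := om / (30 * q) with hc
  have hc0 : 0 < c := by positivity
  set T : ℝ := om / (100 * q) with hTdef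
  have hT0 : 0 < T := by positivity
  have hT1 : T ≤ 1 / 4 := by
    rw [hTdef, div_le_iff₀ (by positivity)]
    nlinarith
  -- growth
  set X0 : ℝ := Real.exp (max (5 / c) (Real.log (4 / T))) with hX0def
  refine ⟨q, om / (4 * q), max (2 * q) ⌈X0⌉₊, hq2, by positivity, ?_, ?_⟩
  · rw [div_le_one (by positivity)]
    linarith
  intro V _ G Δ N t Dm _ Md B Kl hΔ hΔN hN2 hnb hMd0 hMd1 hB hKl hcount
  have hΔq : 2 * q ≤ Δ := (le_max_left _ _).trans hΔ
  have hΔX : X0 ≤ Δ := by
    have h1 : ⌈X0⌉₊ ≤ Δ := (le_max_right _ _).trans hΔ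
    exact (Nat.le_ceil X0).trans (by exact_mod_cast h1)
  have hΔpos : 0 < Δ := by omega
  have hΔr : (0 : ℝ) < Δ := by exact_mod_cast hΔpos
  have hNpos : 0 < N := by omega
  have hNr : (0 : ℝ) < N := by exact_mod_cast hNpos
  have hM : 0 < q * N := Nat.mul_pos (by omega) hNpos
  have hlogX : max (5 / c) (Real.log (4 / T)) ≤ Real.log Δ := by
    rw [Real.le_log_iff_exp_le hΔr]
    exact hΔX
  have hlog1 : 5 / c ≤ Real.log Δ := (le_max_left _ _).trans hlogX
  have hlog2 : Real.log (4 / T) ≤ Real.log Δ := (le_max_right _ _).trans hlogX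
  have hlog0 : 0 < Real.log Δ := lt_of_lt_of_le (by positivity) hlog1
  have hX0 : (Δ : ℝ) ^ 4 ≤ T / 4 * Real.exp (c * Real.log Δ ^ 2) := by
    have h1 : (Δ : ℝ) ^ 4 = Real.exp (4 * Real.log Δ) := by
      rw [show (4 : ℝ) * Real.log Δ = ((4 : ℕ) : ℝ) * Real.log Δ by norm_num, Real.exp_nat_mul,
        Real.exp_log hΔr]
    have h2 : Real.exp (-Real.log Δ) ≤ T / 4 := by
      rw [Real.exp_neg, Real.exp_log hΔr]
      have h3 : 4 / T ≤ Δ := by
        rw [← Real.log_le_log_iff (by positivity) hΔr]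
        exact hlog2
      rw [inv_le_comm₀ hΔr (by positivity), inv_div]
      exact h3
    have h4 : 4 * Real.log Δ ≤ -Real.log Δ + c * Real.log Δ ^ 2 := by
      have h5 : 5 ≤ Real.log Δ * c := by
        rwa [div_le_iff₀ hc0] at hlog1
      nlinarith
    rw [h1]
    calc Real.exp (4 * Real.log Δ) ≤ Real.exp (-Real.log Δ + c * Real.log Δ ^ 2) :=
          Real.exp_le_exp.2 h4
      _ = Real.exp (-Real.log Δ) * Real.exp (c * Real.log Δ ^ 2) := Real.exp_add _ _
      _ ≤ T / 4 * Real.exp (c * Real.log Δ ^ 2) :=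
          mul_le_mul_of_nonneg_right h2 (Real.exp_pos _).le
  let good : V × V × V → Prop := fun p => p.2.1 ≠ p.2.2 ∧ p.2.1 ∈ nb G p.1 ∧ p.2.2 ∈ nb G p.1
  let Sc : (V × V × V) ⊕ Dm → Finset V := Sum.elim
    (fun p => if good p then {p.2.1, p.2.2} else ∅) (fun d => Md d ∪ (Md d).biUnion (Kl d))
  let W1 : ℝ := 1 / ((q * N : ℕ) : ℝ) ^ 2 * Real.exp (4 * T)
  let W2 : ℝ := 2 * Real.exp (-(c * Real.log Δ ^ 2))
  let W : (V × V × V) ⊕ Dm → ℝ := Sum.elim (fun p => if good p then W1 else 0) (fun _ => W2)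
  let P : (V × V × V) ⊕ Dm → (V → Fin (q * N)) → Prop := Sum.elim
    (fun p f => good p → ¬ ((f p.2.1 : ℕ) = t p.1 p.2.1 ∧ (f p.2.2 : ℕ) = t p.1 p.2.2))
    (fun d f => om / (4 * q) * ((Md d).card : ℝ) ≤ (((Md d).filter (fun y => (f y : ℕ) ∈ B d y ∧
      ∀ w ∈ Kl d y, (f w : ℕ) = f y → N ≤ (f y : ℕ))).card : ℝ))
  have hpack : ∀ r, PackI (M := q * N) T (Sc r) (W r) (P r) := by
    rintro (p | d)
    · by_cases hp : good p
      · obtain ⟨κ, hκ, Q, E, e1, e2, e3, e4, e5⟩ := pair_pack (M := q * N) hM T p.2.1 p.2.2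
          hp.1 (t p.1 p.2.1) (t p.1 p.2.2)
        refine ⟨κ, hκ, Q, E, e1, e2, ?_, ?_, ?_⟩
        · simpa only [Sc, Sum.elim_inl, if_pos hp] using e3
        · simpa only [W, Sum.elim_inl, if_pos hp] using e4
        · intro f hf _
          exact e5 f hf
      · refine ⟨PEmpty, inferInstance, fun k => k.elim, fun k => k.elim, fun k => k.elim,
          fun k => k.elim, fun k => k.elim, ?_, fun f _ h => absurd h hp⟩
        simp [W, hp]
    · have hMdp : (0 : ℝ) < ((Md d).card : ℝ) := lt_of_lt_of_le (by positivity) (hMd0 d)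
      obtain ⟨κ, hκ, Q, E, e1, e2, e3, e4, e5⟩ := dem_pack hH hK om (((Md d).card : ℝ) / Δ) hom
        hom1 (by positivity) q hq Δ N hΔq hΔN (Md d) (B d) (Kl d)
        (le_of_eq (div_mul_cancel₀ _ hΔr.ne')) (hMd1 d) (hB d) (hKl d)
      refine ⟨κ, hκ, Q, E, e1, e2, e3, ?_, e5⟩
      refine e4.trans ?_
      simp only [W, W2, Sum.elim_inr]
      apply mul_le_mul_of_nonneg_left _ (by norm_num)
      apply Real.exp_le_exp.2
      have h1 : -(om * (((Md d).card : ℝ) / Δ) / (30 * q)) * Δ = -(c * ((Md d).card : ℝ)) := by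
        rw [hc]; field_simp
      rw [h1]
      exact neg_le_neg (mul_le_mul_of_nonneg_left (hMd0 d) hc0.le)
  have hsum : ∀ y, ∑ r ∈ univ.filter (fun r => y ∈ Sc r), W r ≤ T := by
    intro y
    rw [Finset.sum_filter, Fintype.sum_sum_type]
    have hA : ∑ p : V × V × V, (if y ∈ Sc (Sum.inl p) then W (Sum.inl p) else 0) ≤ T / 2 := by
      have h1 : ∀ p : V × V × V, (if y ∈ Sc (Sum.inl p) then W (Sum.inl p) else 0) ≤
          (if p ∈ ((nb G y).biUnion fun v => (nb G v).image fun x => (v, y, x)) ∪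
            ((nb G y).biUnion fun v => (nb G v).image fun x => (v, x, y)) then W1 else 0) := by
        intro p
        have hW1 : 0 ≤ W1 := by positivity
        by_cases hy : y ∈ Sc (Sum.inl p)
        · rw [if_pos hy]
          by_cases hp : good p
          · obtain ⟨v, x, x'⟩ := p
            simp only [Sc, Sum.elim_inl, if_pos hp, Finset.mem_insert, Finset.mem_singleton] at hy
            obtain ⟨-, hp1, hp2⟩ := hp
            simp only [nb, mem_filter, mem_univ, true_and] at hp1 hp2
            rw [if_pos]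
            · simp only [W, Sum.elim_inl]
              split_ifs
              · exact le_rfl
              · exact hW1
            · rw [Finset.mem_union]
              rcases hy with rfl | rfl
              · left
                refine Finset.mem_biUnion.2 ⟨v, ?_, Finset.mem_image.2 ⟨x', ?_, rfl⟩⟩
                · simp [nb, hp1.symm]
                · simp [nb, hp2]
              · right
                refine Finset.mem_biUnion.2 ⟨v, ?_, Finset.mem_image.2 ⟨x, ?_, rfl⟩⟩
                · simp [nb, hp2.symm]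
                · simp [nb, hp1]
          · simp [Sc, hp] at hy
        · rw [if_neg hy]
          split_ifs
          · exact hW1
          · exact le_rfl
      refine (Finset.sum_le_sum fun p _ => h1 p).trans ?_
      rw [← Finset.sum_filter, Finset.sum_const, nsmul_eq_mul]
      have h2 : ∀ F : V → V → V × V × V, ((nb G y).biUnion fun v => (nb G v).image (F v)).card ≤
          Δ * Δ := by
        intro F
        refine Finset.card_biUnion_le.trans ?_
        calc ∑ v ∈ nb G y, ((nb G v).image (F v)).card ≤ ∑ v ∈ nb G y, Δ :=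
              Finset.sum_le_sum fun v _ => Finset.card_image_le.trans (hnb v)
          _ = (nb G y).card * Δ := by rw [Finset.sum_const, smul_eq_mul]
          _ ≤ Δ * Δ := Nat.mul_le_mul_right _ (hnb y)
      have h3 : (univ.filter (fun p : V × V × V =>
          p ∈ ((nb G y).biUnion fun v => (nb G v).image fun x => (v, y, x)) ∪
            ((nb G y).biUnion fun v => (nb G v).image fun x => (v, x, y)))).card ≤ 2 * Δ ^ 2 := by
        rw [Finset.filter_mem_eq_inter, Finset.univ_inter]
        refine (Finset.card_union_le _ _).trans ?_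
        have := h2 (fun v x => (v, y, x))
        have := h2 (fun v x => (v, x, y))
        nlinarith
      have h3r : ((univ.filter (fun p : V × V × V =>
          p ∈ ((nb G y).biUnion fun v => (nb G v).image fun x => (v, y, x)) ∪
            ((nb G y).biUnion fun v => (nb G v).image fun x => (v, x, y)))).card : ℝ) ≤
          2 * (Δ : ℝ) ^ 2 := by exact_mod_cast h3
      refine (mul_le_mul_of_nonneg_right h3r (by positivity)).trans ?_
      have h4 : Real.exp (4 * T) ≤ 3 := by
        have h5 : Real.exp (4 * T) ≤ Real.exp 1 := Real.exp_le_exp.2 (by linarith)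
        have := Real.exp_one_lt_d9
        linarith
      have h5 : (Δ : ℝ) ^ 2 ≤ (N : ℝ) ^ 2 := by
        have : (Δ : ℝ) ≤ N := by exact_mod_cast hΔN
        exact pow_le_pow_left₀ hΔr.le this 2
      have h6 : T / 2 = om / (200 * q) := by rw [hTdef]; field_simp; ring
      rw [h6]
      simp only [W1]
      push_cast
      rw [show 2 * (Δ : ℝ) ^ 2 * (1 / ((q : ℝ) * N) ^ 2 * Real.exp (4 * T)) =
        (2 * Real.exp (4 * T) / (q : ℝ) ^ 2) * ((Δ : ℝ) ^ 2 / (N : ℝ) ^ 2) by field_simp]
      have h7 : (Δ : ℝ) ^ 2 / (N : ℝ) ^ 2 ≤ 1 := by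
        rw [div_le_one (by positivity)]; exact h5
      have h8 : 2 * Real.exp (4 * T) / (q : ℝ) ^ 2 ≤ om / (200 * q) := by
        rw [div_le_div_iff₀ (by positivity) (by positivity)]
        nlinarith
      calc (2 * Real.exp (4 * T) / (q : ℝ) ^ 2) * ((Δ : ℝ) ^ 2 / (N : ℝ) ^ 2)
          ≤ (2 * Real.exp (4 * T) / (q : ℝ) ^ 2) * 1 :=
            mul_le_mul_of_nonneg_left h7 (by positivity)
        _ ≤ om / (200 * q) := by rw [mul_one]; exact h8
    have hB' : ∑ d : Dm, (if y ∈ Sc (Sum.inr d) then W (Sum.inr d) else 0) ≤ T / 2 := by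
      rw [← Finset.sum_filter]
      simp only [W, Sum.elim_inr, Finset.sum_const, nsmul_eq_mul]
      have h1 : (univ.filter (fun d : Dm => y ∈ Sc (Sum.inr d))).card ≤ Δ ^ 4 := by
        refine le_trans (Finset.card_le_card ?_) (hcount y)
        intro d hd
        have hd' := (Finset.mem_filter.1 hd).2
        simp only [Sc, Sum.elim_inr, Finset.mem_union, Finset.mem_biUnion] at hd'
        exact Finset.mem_filter.2 ⟨mem_univ _, hd'⟩
      have h2 : ((univ.filter (fun d : Dm => y ∈ Sc (Sum.inr d))).card : ℝ) ≤ (Δ : ℝ) ^ 4 := by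
        exact_mod_cast h1
      have h3 := hX0
      calc ((univ.filter (fun d : Dm => y ∈ Sc (Sum.inr d))).card : ℝ) * W2
          ≤ (Δ : ℝ) ^ 4 * W2 := mul_le_mul_of_nonneg_right h2 (by positivity)
        _ ≤ (T / 4 * Real.exp (c * Real.log Δ ^ 2)) * W2 :=
            mul_le_mul_of_nonneg_right h3 (by positivity)
        _ = T / 2 * (Real.exp (c * Real.log Δ ^ 2) * Real.exp (-(c * Real.log Δ ^ 2))) := by
            simp only [W2]; ring
        _ = T / 2 := by
            rw [← Real.exp_add, add_neg_cancel, Real.exp_zero, mul_one]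
    have := add_le_add hA hB'
    linarith
  obtain ⟨f, hf⟩ := hL V (q * N) ((V × V × V) ⊕ Dm) T Sc W P hM hT0.le hT1 hpack hsum
  refine ⟨fun v => (f v : ℕ), fun v => (f v).2, ?_, ?_⟩
  · intro v
    by_contra hcon
    push Not at hcon
    obtain ⟨x, hx, x', hx', hne⟩ := Finset.one_lt_card.1 hcon
    have h1 := Finset.mem_filter.1 hx
    have h2 := Finset.mem_filter.1 hx'
    exact hf (Sum.inl (v, x, x')) ⟨hne, h1.1, h2.1⟩ ⟨h1.2, h2.2⟩
  · intro d
    exact hf (Sum.inr d)

end Pool.Agent.Work.MP_db9399_vt
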