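import Pool.Agent.Work.MP_db9399_vt.Tools

/-!
# MP_db9399 VERT, block RLB: few labels may be changed (helper51)
-/

set_option autoImplicit false

namespace Pool.Agent.Work.MP_db9399_vt

open Finset Classical
open Pool.Agent.Work.MP_db9399_all (nb)
open Pool.Agent.Work.MP_db9399_px (LWalk hit ee)
open Pool.Agent.Work.MP_db9399_bg (den cl LabP Good)

universe u

namespace RLBAux

variable {V : Type u} [Fintype V]

theorem ee_le (G : SimpleGraph V) (d : ℕ) (hd : ∀ v, (nb G v).card ≤ d)
    (A A1 A2 X1 B1 B2 X2 : Finset V) (hA : A1 ⊆ A) (hA1 : A1 ⊆ A2 ∪ X1) (hB1 : B1 ⊆ B2 ∪ X2) :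
    ee G A1 B1 ≤ ee G A2 B2 + (X1.card : ℝ) * d + ee G A X2 := by
  unfold ee
  have hsplit : A1 = (A1 ∩ A2) ∪ (A1 \ A2) := by
    ext x
    simp only [mem_union, mem_inter, mem_sdiff]
    tauto
  have hdis : Disjoint (A1 ∩ A2) (A1 \ A2) := by
    rw [Finset.disjoint_left]
    intro x hx hx'
    exact (mem_sdiff.1 hx').2 (mem_inter.1 hx).2
  have h0 : ∑ a ∈ A1, ((nb G a ∩ B1).card : ℝ) =
      ∑ a ∈ A1 ∩ A2, ((nb G a ∩ B1).card : ℝ) + ∑ a ∈ A1 \ A2, ((nb G a ∩ B1).card : ℝ) := by
    conv_lhs => rw [hsplit]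
    exact Finset.sum_union hdis
  rw [h0]
  have h1 : ∑ a ∈ A1 \ A2, ((nb G a ∩ B1).card : ℝ) ≤ (X1.card : ℝ) * d := by
    calc ∑ a ∈ A1 \ A2, ((nb G a ∩ B1).card : ℝ) ≤ ∑ a ∈ A1 \ A2, (d : ℝ) := by
          apply Finset.sum_le_sum
          intro a _
          exact_mod_cast (Finset.card_le_card Finset.inter_subset_left).trans (hd a)
      _ = ((A1 \ A2).card : ℝ) * d := by rw [Finset.sum_const, nsmul_eq_mul]
      _ ≤ (X1.card : ℝ) * d := by
          apply mul_le_mul_of_nonneg_right _ (Nat.cast_nonneg _)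
          apply Nat.cast_le.2
          apply Finset.card_le_card
          intro x hx
          have hx1 := mem_sdiff.1 hx
          rcases mem_union.1 (hA1 hx1.1) with h | h
          · exact absurd h hx1.2
          · exact h
  have h2 : ∑ a ∈ A1 ∩ A2, ((nb G a ∩ B1).card : ℝ) ≤
      ∑ a ∈ A2, ((nb G a ∩ B2).card : ℝ) + ∑ a ∈ A, ((nb G a ∩ X2).card : ℝ) := by
    calc ∑ a ∈ A1 ∩ A2, ((nb G a ∩ B1).card : ℝ)
        ≤ ∑ a ∈ A1 ∩ A2, (((nb G a ∩ B2).card : ℝ) + ((nb G a ∩ X2).card : ℝ)) := by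
          apply Finset.sum_le_sum
          intro a _
          have h3 : nb G a ∩ B1 ⊆ (nb G a ∩ B2) ∪ (nb G a ∩ X2) := by
            intro x hx
            have hx1 := mem_inter.1 hx
            rcases mem_union.1 (hB1 hx1.2) with h | h
            · exact mem_union_left _ (mem_inter.2 ⟨hx1.1, h⟩)
            · exact mem_union_right _ (mem_inter.2 ⟨hx1.1, h⟩)
          exact_mod_cast (Finset.card_le_card h3).trans (Finset.card_union_le _ _)
      _ = ∑ a ∈ A1 ∩ A2, ((nb G a ∩ B2).card : ℝ) + ∑ a ∈ A1 ∩ A2, ((nb G a ∩ X2).card : ℝ) :=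
          Finset.sum_add_distrib
      _ ≤ _ := by
          apply add_le_add
          · exact Finset.sum_le_sum_of_subset_of_nonneg Finset.inter_subset_right
              (fun _ _ _ => Nat.cast_nonneg _)
          · exact Finset.sum_le_sum_of_subset_of_nonneg (Finset.inter_subset_left.trans hA)
              (fun _ _ _ => Nat.cast_nonneg _)
  linarith

theorem card_le (S A B X : Finset V) (h : A ⊆ B ∪ X) :
    ((S ∩ A).card : ℝ) ≤ ((S ∩ B).card : ℝ) + ((S ∩ X).card : ℝ) := by
  have h3 : S ∩ A ⊆ (S ∩ B) ∪ (S ∩ X) := by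
    intro x hx
    have hx1 := mem_inter.1 hx
    rcases mem_union.1 (h hx1.2) with h | h
    · exact mem_union_left _ (mem_inter.2 ⟨hx1.1, h⟩)
    · exact mem_union_right _ (mem_inter.2 ⟨hx1.1, h⟩)
  exact_mod_cast (Finset.card_le_card h3).trans (Finset.card_union_le _ _)

end RLBAux

open RLBAux in
theorem stmt_RLB : Stmt_RLB.{u} := by
  intro V _ T Q _ _ G d σ σ1 c1 lab lab' q R hd hσ hσ1 hR hL hq hlab
  have hdR : 0 ≤ den R := by unfold den; positivity
  have hdr : (0 : ℝ) ≤ d := Nat.cast_nonneg _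
  set X : Finset V := cl q R with hX
  have s1 : ∀ P : Finset T, cl lab' P ⊆ cl lab P ∪ X := by
    intro P v hv
    have hv' : lab' v ∈ P := by simpa [cl] using hv
    by_cases h : q v ∈ R
    · exact mem_union_right _ (by simp [hX, cl, h])
    · apply mem_union_left
      rw [hlab v h] at hv'
      simp [cl, hv']
  have s2 : ∀ P : Finset T, cl lab P ⊆ cl lab' P ∪ X := by
    intro P v hv
    have hv' : lab v ∈ P := by simpa [cl] using hv
    by_cases h : q v ∈ R
    · exact mem_union_right _ (by simp [hX, cl, h])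
    · apply mem_union_left
      rw [← hlab v h] at hv'
      simp [cl, hv']
  have hXd : ∀ v, ((nb G v ∩ X).card : ℝ) ≤ (den R + σ1) * d := by
    intro v
    have h1 := (abs_le.1 (hq.deg v R)).2
    have h2 : ((nb G v).card : ℝ) ≤ d := by exact_mod_cast hd v
    have h3 := mul_le_mul_of_nonneg_left h2 hdR
    change ((nb G v ∩ cl q R).card : ℝ) ≤ _
    nlinarith
  have heX : ∀ A : Finset V, ee G A X ≤ A.card * ((den R + σ1) * d) := by
    intro A
    unfold ee
    calc ∑ a ∈ A, ((nb G a ∩ X).card : ℝ) ≤ ∑ a ∈ A, (den R + σ1) * d :=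
          Finset.sum_le_sum fun a _ => hXd a
      _ = A.card * ((den R + σ1) * d) := by rw [Finset.sum_const, nsmul_eq_mul]
  refine ⟨?_, ?_, ?_⟩
  · intro v P
    have h1 := abs_le.1 (hL.deg v P)
    have h2 := card_le (nb G v) _ _ _ (s1 P)
    have h3 := card_le (nb G v) _ _ _ (s2 P)
    have h4 := hXd v
    rw [abs_le]
    constructor <;> nlinarith [mul_nonneg hdR hdr, mul_nonneg hσ1 hdr]
  · intro v P
    have h1 := hL.sps v P
    have h2 := ee_le G d hd (nb G v) (nb G v ∩ cl lab' P) (nb G v ∩ cl lab P) (nb G v ∩ X)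
      (nb G v ∩ cl lab' P) (nb G v ∩ cl lab P) X Finset.inter_subset_left
      (by
        intro x hx
        have hx1 := mem_inter.1 hx
        rcases mem_union.1 (s1 P hx1.2) with h | h
        · exact mem_union_left _ (mem_inter.2 ⟨hx1.1, h⟩)
        · exact mem_union_right _ (mem_inter.2 ⟨hx1.1, h⟩))
      (by
        intro x hx
        have hx1 := mem_inter.1 hx
        rcases mem_union.1 (s1 P hx1.2) with h | h
        · exact mem_union_left _ (mem_inter.2 ⟨hx1.1, h⟩)
        · exact mem_union_right _ h)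
    have h3 := mul_le_mul_of_nonneg_right (hXd v) hdr
    have h4 := heX (nb G v)
    have h5 : ((nb G v).card : ℝ) ≤ d := by exact_mod_cast hd v
    have h6 : ((nb G v).card : ℝ) * ((den R + σ1) * d) ≤ d * ((den R + σ1) * d) :=
      mul_le_mul_of_nonneg_right h5 (by positivity)
    have h7 : 0 ≤ (den R + σ1) * d * d := by positivity
    nlinarith
  · intro P P' L w R' S θ1 θ2 hPQ hP hw hL1 h1 h2 hcov hc
    obtain ⟨g1, g2, g3⟩ := hL.cod P P' L w R' S θ1 θ2 hPQ hP hw hL1 h1 h2 hcov hc
    obtain ⟨_, k2, k3⟩ := hq.cod R R L w R' S θ1 θ2 rfl hR hw hL1 h1 h2 hcov hc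
    set A := hit G θ2 S with hAdef
    set B := hit G θ1 R' with hBdef
    have hA0 : (0 : ℝ) ≤ A.card := Nat.cast_nonneg _
    have hB0 : (0 : ℝ) ≤ B.card := Nat.cast_nonneg _
    have kA : ((A ∩ X).card : ℝ) ≤ (den R + σ1) * ((A.card : ℝ) + B.card) := by
      have := (abs_le.1 k2).2
      have h3 := mul_nonneg hdR hB0
      change ((A ∩ cl q R).card : ℝ) ≤ _
      nlinarith
    have kB : ((B ∩ X).card : ℝ) ≤ (den R + σ1) * ((A.card : ℝ) + B.card) := by
      have := (abs_le.1 k3).2
      have h3 := mul_nonneg hdR hA0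
      change ((B ∩ cl q R).card : ℝ) ≤ _
      nlinarith
    have hs0 : 0 ≤ (den R + σ1) * ((A.card : ℝ) + B.card) := by positivity
    refine ⟨?_, ?_, ?_⟩
    · have e1 := ee_le G d hd A (A ∩ cl lab' P) (A ∩ cl lab P) (A ∩ X) (cl lab' P' \ B)
        (cl lab P' \ B) X Finset.inter_subset_left
        (by
          intro x hx
          have hx1 := mem_inter.1 hx
          rcases mem_union.1 (s1 P hx1.2) with h | h
          · exact mem_union_left _ (mem_inter.2 ⟨hx1.1, h⟩)
          · exact mem_union_right _ (mem_inter.2 ⟨hx1.1, h⟩))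
        (by
          intro x hx
          have hx1 := mem_sdiff.1 hx
          rcases mem_union.1 (s1 P' hx1.1) with h | h
          · exact mem_union_left _ (mem_sdiff.2 ⟨h, hx1.2⟩)
          · exact mem_union_right _ h)
      have e2 := ee_le G d hd A (A ∩ cl lab P) (A ∩ cl lab' P) (A ∩ X) (cl lab P' \ B)
        (cl lab' P' \ B) X Finset.inter_subset_left
        (by
          intro x hx
          have hx1 := mem_inter.1 hx
          rcases mem_union.1 (s2 P hx1.2) with h | h
          · exact mem_union_left _ (mem_inter.2 ⟨hx1.1, h⟩)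
          · exact mem_union_right _ (mem_inter.2 ⟨hx1.1, h⟩))
        (by
          intro x hx
          have hx1 := mem_sdiff.1 hx
          rcases mem_union.1 (s2 P' hx1.1) with h | h
          · exact mem_union_left _ (mem_sdiff.2 ⟨h, hx1.2⟩)
          · exact mem_union_right _ h)
      have e3 := heX A
      have e4 := mul_le_mul_of_nonneg_right kA hdr
      have e5 : (A.card : ℝ) * ((den R + σ1) * d) ≤
          (den R + σ1) * ((A.card : ℝ) + B.card) * d := by
        have : 0 ≤ (B.card : ℝ) * ((den R + σ1) * d) := by positivity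
        nlinarith
      have e6 := abs_le.1 g1
      have e7 : 0 ≤ (den R + σ1) * ((A.card : ℝ) + B.card) * d := by positivity
      rw [abs_le]
      constructor <;> nlinarith
    · have c1' := card_le A _ _ _ (s1 P)
      have c2' := card_le A _ _ _ (s2 P)
      have c3' := abs_le.1 g2
      rw [abs_le]
      constructor <;> nlinarith
    · have c1' := card_le B _ _ _ (s1 P')
      have c2' := card_le B _ _ _ (s2 P')
      have c3' := abs_le.1 g3
      rw [abs_le]
      constructor <;> nlinarith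

end Pool.Agent.Work.MP_db9399_vt
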